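import Mathlib
import Pool.Agent.MP_6132b6_co.Defs
import Pool.Agent.MP_6132b6_co.Mg.Inner

namespace Pool.Agent.Results.MP_6132b6_co.NoLinearBound

open Pool.Agent.MP_6132b6_co

/-- For every `c > 0` there is `r ≥ 1` such that, for all sufficiently large `n`, the complex
`VR(Q_n; r)` has a facet with fewer than `c r` vertices, i.e. `s(n; r) < c r`. -/
theorem result (c : ℝ) (hc : 0 < c) :
    ∃ r : ℕ, 1 ≤ r ∧ ∃ N : ℕ, ∀ n ≥ N,
      ∃ S : Finset (Fin n → Bool), IsFacet r S ∧ (S.card : ℝ) < c * r := by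
  obtain ⟨e, he⟩ := pow_unbounded_of_one_lt (2 / c) (by norm_num : (1 : ℝ) < 3)
  obtain ⟨r, N, hr, h⟩ := main e
  refine ⟨r, hr, N, fun n hn => ?_⟩
  obtain ⟨S, hS, h0⟩ := h n hn
  refine ⟨S, hS, ?_⟩
  have h1 : (S.card : ℝ) * 3 ^ e ≤ 2 * r := by exact_mod_cast h0
  have hr' : (0 : ℝ) < r := by exact_mod_cast hr
  rw [div_lt_iff₀ hc] at he
  have h2 : (S.card : ℝ) * 3 ^ e < (c * r) * 3 ^ e := by nlinarith
  exact lt_of_mul_lt_mul_right h2 (by positivity)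

end Pool.Agent.Results.MP_6132b6_co.NoLinearBound
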